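import Mathlib
import Pool.Agent.H5.Seeds.Asm

set_option autoImplicit false

/-!
# From groups of Dirichlet characters to abelian number fields

`K` is the cyclotomic field of the `M`-th roots of unity and `F` a subfield of `K`.  A character `ρ`
of `Gal(F/ℚ)` gives the Dirichlet character `a ↦ ρ(σ_a|F)`, `σ_a(ζ) = ζ^a`.
-/

namespace Pool.Agent.H5.LI

open DirichletCharacter IsCyclotomicExtension.Rat
open Pool.Agent.Results.MP_0016c7_nt.SimultaneousTwists (Positive)

section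

variable (M : ℕ) [NeZero M] {K : Type} [Field K] [NumberField K] [IsCyclotomicExtension {M} ℚ K]

/-- The Dirichlet character modulo `M` of a character `ρ` of `Gal(F/ℚ)`, `F ⊆ K = ℚ(ζ_M)`:
`a ↦ ρ(σ_a|F)`, where `σ_a(ζ) = ζ ^ a`. -/
noncomputable def dir (F : IntermediateField ℚ K) [Normal ℚ F] (ρ : Gal(F/ℚ) →* ℂˣ) :
    DirichletCharacter ℂ M :=
  haveI : IsGalois ℚ K := IsCyclotomicExtension.isGalois {M} ℚ K
  MulChar.ofUnitHom ((ρ.comp (AlgEquiv.restrictNormalHom F)).comp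
    (galEquivZMod M K).symm.toMonoidHom)

theorem dir_apply (F : IntermediateField ℚ K) [Normal ℚ F] (ρ : Gal(F/ℚ) →* ℂˣ) (σ : Gal(K/ℚ)) :
    dir M F ρ (galEquivZMod M K σ) = (ρ (AlgEquiv.restrictNormalHom F σ) : ℂ) := by
  unfold dir
  rw [MulChar.ofUnitHom_coe]
  change ((ρ (AlgEquiv.restrictNormalHom F ((galEquivZMod M K).symm (galEquivZMod M K σ))) : ℂˣ) : ℂ)
    = _
  rw [MulEquiv.symm_apply_apply]

theorem ker_restrict (F : IntermediateField ℚ K) [Normal ℚ F] (σ : Gal(K/ℚ)) :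
    (AlgEquiv.restrictNormalHom F σ : Gal(F/ℚ)) = 1 ↔ σ ∈ F.fixingSubgroup := by
  rw [IntermediateField.mem_fixingSubgroup_iff]
  constructor
  · intro h x hx
    have h1 := AlgEquiv.restrictNormal_commutes σ F (⟨x, hx⟩ : F)
    have h2 : σ.restrictNormal F = 1 := h
    rw [h2] at h1
    exact h1.symm
  · intro h
    ext x
    have h1 := AlgEquiv.restrictNormal_commutes σ F x
    have h3 : algebraMap F K (σ.restrictNormal F x) = algebraMap F K x := by
      rw [h1]
      exact h _ x.2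
    exact h3

theorem dir_mem (F : IntermediateField ℚ K) [Normal ℚ F] [IsAbelianGalois ℚ K]
    (ρ : Gal(F/ℚ) →* ℂˣ) :
    dir M F ρ ∈ intermediateFieldEquivSubgroupChar M K ℂ F := by
  rw [mem_intermediateFieldEquivSubgroupChar_iff]
  intro σ hσ
  rw [dir_apply, (ker_restrict F σ).2 hσ, map_one, Units.val_one]

theorem dir_inj (F : IntermediateField ℚ K) [Normal ℚ F] {ρ ρ' : Gal(F/ℚ) →* ℂˣ}
    (h : dir M F ρ = dir M F ρ') : ρ = ρ' := by
  have : IsGalois ℚ K := IsCyclotomicExtension.isGalois {M} ℚ K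
  ext τ
  obtain ⟨σ, rfl⟩ := AlgEquiv.restrictNormalHom_surjective K τ
  rw [← dir_apply M, h, dir_apply]

theorem dir_one (F : IntermediateField ℚ K) [Normal ℚ F] : dir M F (1 : Gal(F/ℚ) →* ℂˣ) = 1 := by
  have : IsGalois ℚ K := IsCyclotomicExtension.isGalois {M} ℚ K
  ext a
  obtain ⟨σ, rfl⟩ := (galEquivZMod M K).surjective a
  rw [dir_apply, MulChar.one_apply_coe]
  simp

/-- every character of the group of `F` comes from a character of the Galois group -/
theorem exists_dir (F : IntermediateField ℚ K) [Normal ℚ F] [IsAbelianGalois ℚ K]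
    (g : DirichletCharacter ℂ M) (hg : g ∈ intermediateFieldEquivSubgroupChar M K ℂ F) :
    ∃ ρ : Gal(F/ℚ) →* ℂˣ, dir M F ρ = g := by
  have : IsGalois ℚ K := IsCyclotomicExtension.isGalois {M} ℚ K
  rw [mem_intermediateFieldEquivSubgroupChar_iff] at hg
  -- the homomorphism on `Gal(K/ℚ)`
  let h : Gal(K/ℚ) →* ℂˣ := g.toUnitHom.comp (galEquivZMod M K).toMonoidHom
  have hk : (AlgEquiv.restrictNormalHom F : Gal(K/ℚ) →* Gal(F/ℚ)).ker ≤ h.ker := by
    intro σ hσ
    rw [MonoidHom.mem_ker, ker_restrict] at hσ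
    rw [MonoidHom.mem_ker]
    have := hg σ hσ
    ext
    simp only [h, MonoidHom.comp_apply, Units.val_one]
    rw [MulChar.coe_toUnitHom]
    exact this
  refine ⟨(AlgEquiv.restrictNormalHom F : Gal(K/ℚ) →* Gal(F/ℚ)).liftOfSurjective
    (AlgEquiv.restrictNormalHom_surjective K) ⟨h, hk⟩, ?_⟩
  ext a
  obtain ⟨σ, rfl⟩ := (galEquivZMod M K).surjective a
  rw [dir_apply, MonoidHom.liftOfRightInverse_comp_apply]
  simp only [h, MonoidHom.comp_apply]
  rw [MulChar.coe_toUnitHom]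
  rfl

end

end Pool.Agent.H5.LI
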