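import Mathlib
import Pool.Agent.H5.LI.Field

set_option autoImplicit false

namespace Pool.Agent.H5.LI

open DirichletCharacter IsCyclotomicExtension.Rat Finset
open Pool.Agent.Results.MP_0016c7_nt.SimultaneousTwists (Positive Class)
open Pool.Agent.H5.Seeds (EE EE_add EE_eq five seeds sel sel_sublist sel_ne not_pos_one pos_level
  psi_sq Goal)

section

variable (M : ℕ) [NeZero M] {K : Type} [Field K] [NumberField K] [IsCyclotomicExtension {M} ℚ K]

theorem dir_mul (F : IntermediateField ℚ K) [Normal ℚ F] (ρ ρ' : Gal(F/ℚ) →* ℂˣ) :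
    dir M F (ρ * ρ') = dir M F ρ * dir M F ρ' := by
  have : IsGalois ℚ K := IsCyclotomicExtension.isGalois {M} ℚ K
  ext a
  obtain ⟨σ, rfl⟩ := (galEquivZMod M K).surjective a
  rw [MulChar.mul_apply, dir_apply, dir_apply, dir_apply, MonoidHom.mul_apply, Units.val_mul]

/-- a nonzero value at `s` for a character gives one for the primitive character -/
theorem primitive_ne {N : ℕ} [NeZero N] (g : DirichletCharacter ℂ N) (h1 : g ≠ 1) (s : ℂ)
    (h : g.LFunction s ≠ 0) :
    haveI : NeZero g.conductor := ⟨g.conductor_ne_zero⟩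
    g.primitiveCharacter.LFunction s ≠ 0 := by
  have : NeZero g.conductor := ⟨g.conductor_ne_zero⟩
  have h2 : changeLevel g.conductor_dvd_level g.primitiveCharacter = g :=
    changeLevel_primitiveCharacter g
  have h3 : g.primitiveCharacter ≠ 1 := by
    intro h4
    rw [h4, map_one] at h2
    exact h1 h2.symm
  have h5 := LFunction_changeLevel g.conductor_dvd_level g.primitiveCharacter (s := s) (Or.inl h3)
  rw [h2] at h5
  intro h6
  rw [h6, zero_mul] at h5
  exact h h5

/-- Every nontrivial character of `Gal(F/ℚ)` has an L-function without zeros at `1/2`, and on the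
interval `(0,1)`. -/
def Central (F : IntermediateField ℚ K) [Normal ℚ F] : Prop :=
  ∀ ρ : Gal(F/ℚ) →* ℂˣ, ρ ≠ 1 → ∃ _ : NeZero (dir M F ρ).conductor,
    (dir M F ρ).primitiveCharacter.LFunction (1 / 2) ≠ 0 ∧
    ∀ s : ℝ, 0 < s → s < 1 → (dir M F ρ).primitiveCharacter.LFunction (s : ℂ) ≠ 0

open scoped IsMulCommutative in
/-- the field of a group of characters -/
theorem field_of_group (r : ℕ) (G : Subgroup (DirichletCharacter ℂ M)) (hc : Nat.card G = 2 ^ r)
    (h2 : ∀ g ∈ G, g ^ 2 = 1) (hp : ∀ g ∈ G, g ≠ 1 → Positive ⟨M, g⟩) :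
    ∃ (F : IntermediateField ℚ K) (_ : IsGalois ℚ F), Module.finrank ℚ F = 2 ^ r ∧
      (∀ σ : Gal(F/ℚ), σ * σ = 1) ∧ Central M F ∧
      ∀ g : DirichletCharacter ℂ M, g ∈ G ↔ ∃ ρ : Gal(F/ℚ) →* ℂˣ, dir M F ρ = g := by
  have : IsGalois ℚ K := IsCyclotomicExtension.isGalois {M} ℚ K
  have : IsAbelianGalois ℚ K := IsCyclotomicExtension.isAbelianGalois {M} ℚ K
  obtain ⟨F, hF⟩ := (intermediateFieldEquivSubgroupChar M K ℂ).surjective G
  have hab : IsAbelianGalois ℚ F := IsAbelianGalois.tower_bot ℚ F K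
  have hgal : IsGalois ℚ F := inferInstance
  have hmem : ∀ ρ : Gal(F/ℚ) →* ℂˣ, dir M F ρ ∈ G := fun ρ => hF ▸ dir_mem M F ρ
  refine ⟨F, hgal, ?_, ?_, ?_, ?_⟩
  · rw [← card_intermediateFieldEquivSubgroupChar M K ℂ F, hF, hc]
  · intro σ
    by_contra h
    obtain ⟨φ, hφ⟩ := CommGroup.exists_apply_ne_one_of_hasEnoughRootsOfUnity Gal(F/ℚ) ℂ h
    apply hφ
    have h3 : φ * φ = 1 := by
      apply dir_inj M F
      rw [dir_mul, dir_one, ← pow_two]
      exact h2 _ (hmem φ)
    have h4 := congrArg (fun f : Gal(F/ℚ) →* ℂˣ => f σ) h3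
    simp only [MonoidHom.mul_apply, MonoidHom.one_apply] at h4
    rw [map_mul]
    exact h4
  · intro ρ hρ
    have h3 : dir M F ρ ≠ 1 := by
      intro h4
      apply hρ
      apply dir_inj M F
      rw [h4, dir_one]
    have : NeZero (dir M F ρ).conductor := ⟨(dir M F ρ).conductor_ne_zero⟩
    obtain ⟨_, h5⟩ := hp _ (hmem ρ) h3
    have key : ∀ s : ℝ, 0 < s → s < 1 →
        (dir M F ρ).primitiveCharacter.LFunction (s : ℂ) ≠ 0 := by
      intro s h0 h1
      apply primitive_ne _ h3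
      intro h6
      have := (h5 s h0 h1).2
      rw [show ((⟨M, dir M F ρ⟩ : Σ N : ℕ, DirichletCharacter ℂ N).2).LFunction (s : ℂ) =
        (dir M F ρ).LFunction (s : ℂ) from rfl, h6] at this
      simp at this
    refine ⟨this, ?_, key⟩
    have h7 := key (1 / 2) (by norm_num) (by norm_num)
    push_cast at h7
    exact h7
  · intro g
    rw [← hF]
    exact ⟨fun h => exists_dir M F g h, fun ⟨ρ, h⟩ => h ▸ dir_mem M F ρ⟩

end

end Pool.Agent.H5.LI
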