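import Mathlib
import Pool.Agent.H5.LI.Main

set_option autoImplicit false

namespace Pool.Agent.H5.LI

open DirichletCharacter IsCyclotomicExtension.Rat Finset
open Pool.Agent.Results.MP_0016c7_nt.SimultaneousTwists (Positive Class)
open Pool.Agent.H5.Seeds (EE EE_add EE_eq five seeds sel sel_sublist sel_ne not_pos_one pos_level
  psi_sq Goal)

/-- the 32 characters modulo 19635 of order at most two -/
theorem explicit_group : ∃ G : Subgroup (DirichletCharacter ℂ 19635), Nat.card G = 2 ^ 5 ∧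
    (∀ g ∈ G, g ^ 2 = 1) ∧ ∀ g ∈ G, g ≠ 1 → Positive ⟨19635, g⟩ := by
  have hdiv : ∀ i, five.get i ∣ 19635 := by decide
  have hM : (19635 : ℕ) ≠ 0 := by norm_num
  let φ : Multiplicative (Fin five.length → ZMod 2) →* DirichletCharacter ℂ 19635 :=
    MonoidHom.mk' (fun v => EE five 19635 hdiv v.toAdd) (fun v w => by
      rw [toAdd_mul]
      exact EE_add five 19635 hdiv _ _)
  have hpos : ∀ v : Multiplicative (Fin five.length → ZMod 2), v ≠ 1 → Positive ⟨19635, φ v⟩ := by
    intro v hv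
    have hv' : v.toAdd ≠ 0 := fun h => hv (by rw [← ofAdd_toAdd v, h]; rfl)
    have hd : (sel five v.toAdd).prod ∣ 19635 := by
      have : five.prod = 19635 := by decide
      rw [← this]
      exact (sel_sublist five _).prod_dvd_prod
    have h0 : (sel five v.toAdd).prod ≠ 0 := by
      intro h
      rw [h, zero_dvd_iff] at hd
      exact hM hd
    change Positive ⟨19635, EE five 19635 hdiv v.toAdd⟩
    rw [EE_eq five _ hM hdiv _ hd]
    exact pos_level h0 hM hd _ (psi_sq _) (seeds _ (sel_sublist five _) (sel_ne five hv'))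
  have hinj : Function.Injective φ := by
    rw [injective_iff_map_eq_one]
    intro v hv
    by_contra h
    have := hpos v h
    rw [hv] at this
    exact not_pos_one _ hM this
  refine ⟨φ.range, ?_, ?_, ?_⟩
  · rw [Nat.card_congr (φ.ofInjective hinj).symm.toEquiv]
    rw [Nat.card_eq_fintype_card]
    decide
  · rintro _ ⟨v, rfl⟩
    rw [← map_pow]
    have : v ^ 2 = 1 := by
      rw [pow_two, ← ofAdd_toAdd v, ← ofAdd_add]
      have h3 : v.toAdd + v.toAdd = 0 := by
        funext i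
        exact CharTwo.add_self_eq_zero _
      rw [h3]
      rfl
    rw [this, map_one]
  · rintro _ ⟨v, rfl⟩ hv
    exact hpos v (fun h => hv (by rw [h, map_one]))

/-- `χ` modulo `N` lies in an elementary abelian extension of degree `32` without central zeros, up
to a character modulo `19635`. -/
def HasField (p : Σ N : ℕ, DirichletCharacter ℂ N) : Prop :=
  ∃ (M : ℕ) (_ : NeZero M) (hN : p.1 ∣ M) (hq : 19635 ∣ M) (ψ : DirichletCharacter ℂ 19635),
    ψ ^ 2 = 1 ∧ ∀ (K : Type) [Field K] [NumberField K] [IsCyclotomicExtension {M} ℚ K],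
      ∃ (F : IntermediateField ℚ K) (_ : IsGalois ℚ F), (Module.finrank ℚ F = 32 ∧
        (∀ σ : Gal(F/ℚ), σ * σ = 1)) ∧ Central M F ∧
        ∃ (ρ : Gal(F/ℚ) →* ℂˣ), dir M F ρ = changeLevel hN p.2 * changeLevel hq ψ

theorem proportion (S : Finset ℕ) (hS : ∀ p ∈ S, p.Prime ∧ p ∉ ({3, 5, 7, 11, 17} : Finset ℕ))
    (c : ℕ → ℤ) (hc : ∀ p ∈ S, c p = 0 ∨ c p = 1 ∨ c p = -1) (s : ℤ) (hs : s = 1 ∨ s = -1) :
    ∃ X0 : ℕ, ∀ X : ℕ, X0 ≤ X →
      (279 / 1000 : ℝ) * ((Class S c s X).ncard : ℝ) ≤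
        ((Class S c s X ∩ {p | HasField p}).ncard : ℝ) := by
  obtain ⟨X0, h⟩ := Pool.Agent.H5.Seeds.main five (List.Sublist.refl _) (by decide) S
    (fun p hp => (hS p hp).1) (fun p hp h => (hS p hp).2 (by simpa [five] using h)) c hc s hs
  obtain ⟨hfin, -, -, -⟩ :=
    Pool.Agent.Results.MP_0016c7_nt.SimultaneousTwists.result S (fun p hp => (hS p hp).1) c hc s hs
  refine ⟨X0, fun X hX => ?_⟩
  have h1 := h X hX
  have hlen : five.length = 5 := rfl
  have hprod : five.prod = 19635 := by decide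
  rw [hlen, hprod] at h1
  have hsub : Class S c s X ∩ {p | Goal 19635 5 p} ⊆ Class S c s X ∩ {p | HasField p} := by
    rintro p ⟨hp, M, hM, hN, hq, G, hG1, hG2, hG3, -, ψ, hψ, hmem⟩
    refine ⟨hp, M, ⟨hM⟩, hN, hq, ψ, hψ, ?_⟩
    intro K _ _ _
    have : NeZero M := ⟨hM⟩
    obtain ⟨F, hF, h2, h3, h4, h5⟩ := field_of_group M (K := K) 5 G hG1 hG2 hG3
    obtain ⟨ρ, hρ⟩ := (h5 _).1 hmem
    exact ⟨F, hF, ⟨h2, h3⟩, h4, ρ, hρ⟩
  have h2 : ((Class S c s X ∩ {p | Goal 19635 5 p}).ncard : ℝ) ≤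
      ((Class S c s X ∩ {p | HasField p}).ncard : ℝ) := by
    exact_mod_cast Set.ncard_le_ncard hsub ((hfin X).subset Set.inter_subset_left)
  refine le_trans ?_ (h1.trans h2)
  apply mul_le_mul_of_nonneg_right _ (Nat.cast_nonneg _)
  norm_num

end Pool.Agent.H5.LI
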